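import Pool.Agent.Y6.G.Stm

/-!
Project EP: the main modes are not rotated (helper454, job EP-UNR).
-/

set_option autoImplicit false

namespace Pool.Agent.Y454.EP.Unr

open Pool.Agent.Y6.M (Z3 Md br)
open Pool.Agent.Y6.G

/-- the frequency `t e_j` -/
def Vw (j : Fin 3) (t : ℤ) : Z3 := fun l => if l = j then t else 0

/-- the frequency `t^61 e_(j+1)` -/
def VW (j : Fin 3) (t : ℤ) : Z3 := fun l => if l = j + 1 then t ^ 61 else 0

/-- the condition on the parameters of a triad of main modes -/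
def GG (j : Fin 3) (t : ℤ) : Prop := ∃ n : ℕ, j.1 = n % 3 ∧ t.natAbs = al n

theorem fin_succ (j : Fin 3) : (j + 1).1 = (j.1 + 1) % 3 := by
  fin_cases j <;> rfl

theorem al_succ (n : ℕ) : al (n + 1) = al n ^ 61 := rfl

theorem al_zero : al 0 = 10 ^ 100 := rfl

theorem kx_apply (n : ℕ) (l : Fin 3) : kx n l = if l.1 = n % 3 then (al n : ℤ) else 0 := rfl

theorem kx_self (n : ℕ) (l : Fin 3) (h : l.1 = n % 3) : kx n l = (al n : ℤ) := by
  rw [kx_apply, if_pos h]

theorem kx_other (n : ℕ) (l : Fin 3) (h : l.1 ≠ n % 3) : kx n l = 0 := by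
  rw [kx_apply, if_neg h]

theorem natAbs_kx (n : ℕ) (l : Fin 3) : (kx n l).natAbs = if l.1 = n % 3 then al n else 0 := by
  rw [kx_apply]
  split_ifs
  · exact Int.natAbs_natCast _
  · rfl

theorem not_pow (t : ℕ) : t ^ 61 ≠ 10 ^ 100 := by
  intro h
  have h1 : (43 : ℕ) ^ 61 < 10 ^ 100 := by norm_num
  have h2 : (10 : ℕ) ^ 100 < 44 ^ 61 := by norm_num
  have h3 : 43 < t := by
    by_contra hc
    have := Nat.pow_le_pow_left (Nat.not_lt.1 hc) 61
    rw [h] at this
    exact absurd h1 (Nat.not_lt.2 this)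
  have h4 : t < 44 := by
    by_contra hc
    have := Nat.pow_le_pow_left (Nat.not_lt.1 hc) 61
    rw [h] at this
    exact absurd h2 (Nat.not_lt.2 this)
  omega

theorem pow_al (t m : ℕ) (h : t ^ 61 = al m) : ∃ n, m = n + 1 ∧ t = al n := by
  cases m with
  | zero =>
    rw [al_zero] at h
    exact absurd h (not_pow t)
  | succ n =>
    rw [al_succ] at h
    exact ⟨n, rfl, Nat.pow_left_injective (by norm_num) h⟩

/-! ### The main modes have these frequencies -/

theorem vw_eq (j : Fin 3) (n : ℕ) (h : j.1 = n % 3) (t : ℤ) (ht : t = (al n : ℤ)) :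
    Vw j t = kx n := by
  funext l
  unfold Vw
  by_cases hl : l = j
  · rw [if_pos hl, kx_self n l (by rw [hl, h]), ht]
  · rw [if_neg hl, kx_other n l (fun h2 => hl (Fin.ext (h2.trans h.symm)))]

theorem vW_eq (j : Fin 3) (n : ℕ) (h : j.1 = n % 3) (t : ℤ) (ht : t = (al n : ℤ)) :
    VW j t = kx (n + 1) := by
  funext l
  unfold VW
  have h3 := fin_succ j
  by_cases hl : l = j + 1
  · rw [if_pos hl, kx_self (n + 1) l (by rw [hl]; omega), ht, al_succ]
    push_cast
    rfl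
  · rw [if_neg hl, kx_other (n + 1) l (fun h2 => hl (Fin.ext (by omega)))]

theorem vw_neg (j : Fin 3) (t : ℤ) : Vw j (-t) = -Vw j t := by
  funext l
  rw [Pi.neg_apply]
  unfold Vw
  split_ifs
  · rfl
  · rw [neg_zero]

theorem vW_neg (j : Fin 3) (t : ℤ) : VW j (-t) = -VW j t := by
  funext l
  rw [Pi.neg_apply]
  unfold VW
  split_ifs
  · exact Odd.neg_pow (by decide) t
  · rw [neg_zero]

/-- both frequencies up to a common sign -/
theorem of_GG {j : Fin 3} {t : ℤ} (h : GG j t) : ∃ n : ℕ, (Vw j t = kx n ∧ VW j t = kx (n + 1)) ∨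
    (Vw j t = -kx n ∧ VW j t = -kx (n + 1)) := by
  obtain ⟨n, hj, ht⟩ := h
  refine ⟨n, ?_⟩
  rcases Int.natAbs_eq t with h1 | h1
  · rw [ht] at h1
    exact Or.inl ⟨vw_eq j n hj t h1, vW_eq j n hj t h1⟩
  · rw [ht] at h1
    right
    have h2 : -t = (al n : ℤ) := by rw [h1, neg_neg]
    have h3 := vw_eq j n hj (-t) h2
    have h4 := vW_eq j n hj (-t) h2
    rw [vw_neg] at h3
    rw [vW_neg] at h4
    exact ⟨by rw [← h3, neg_neg], by rw [← h4, neg_neg]⟩

/-! ### Conversely -/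

theorem eq_Xm (i : Md) (n : ℕ) (h1 : i.1.1 = kx n) (h2 : i.2 = true) : i = Xm n :=
  Prod.ext (Subtype.ext h1) h2

theorem eq_brXm (i : Md) (n : ℕ) (h1 : i.1.1 = -kx n) (h2 : i.2 = true) : i = br (Xm n) :=
  Prod.ext (Subtype.ext h1) h2

theorem eq_Ym (i : Md) (n : ℕ) (h1 : i.1.1 = kx n + kx (n + 1)) (h2 : i.2 = false) : i = Ym n :=
  Prod.ext (Subtype.ext h1) h2

theorem eq_brYm (i : Md) (n : ℕ) (h1 : i.1.1 = -(kx n + kx (n + 1))) (h2 : i.2 = false) :
    i = br (Ym n) :=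
  Prod.ext (Subtype.ext h1) h2

theorem natAbs_of (u v : Z3) (h : u = v ∨ u = -v) (l : Fin 3) : (u l).natAbs = (v l).natAbs := by
  rcases h with h | h
  · rw [h]
  · rw [h, Pi.neg_apply, Int.natAbs_neg]

section main
variable (hLV : S_LV)
include hLV

theorem zero_of_X (i : Md) (n : ℕ) (h : i.1.1 = kx n ∨ i.1.1 = -kx n) (h2 : i.2 = true) :
    σM i = 0 := by
  have hσ := hLV.2.1 n
  rcases h with h | h
  · rw [eq_Xm i n h h2]; exact hσ.1
  · rw [eq_brXm i n h h2]; exact hσ.2.1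

theorem zero_of_Y (i : Md) (n : ℕ) (h : i.1.1 = kx n + kx (n + 1) ∨ i.1.1 = -(kx n + kx (n + 1)))
    (h2 : i.2 = false) : σM i = 0 := by
  have hσ := hLV.2.1 n
  rcases h with h | h
  · rw [eq_Ym i n h h2]; exact hσ.2.2.1
  · rw [eq_brYm i n h h2]; exact hσ.2.2.2

theorem X_of_zero (i : Md) (h2 : i.2 = true) (h : σM i = 0) :
    ∃ n, i.1.1 = kx n ∨ i.1.1 = -kx n := by
  obtain ⟨n, h | h | h | h⟩ := hLV.2.2.1 i h
  · exact ⟨n, Or.inl (by rw [h]; rfl)⟩
  · exact ⟨n, Or.inr (by rw [h]; rfl)⟩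
  · rw [h] at h2; exact absurd (show false = true from h2) (by decide)
  · rw [h] at h2; exact absurd (show false = true from h2) (by decide)

theorem Y_of_zero (i : Md) (h2 : i.2 = false) (h : σM i = 0) :
    ∃ n, i.1.1 = kx n + kx (n + 1) ∨ i.1.1 = -(kx n + kx (n + 1)) := by
  obtain ⟨n, h | h | h | h⟩ := hLV.2.2.1 i h
  · rw [h] at h2; exact absurd (show true = false from h2) (by decide)
  · rw [h] at h2; exact absurd (show true = false from h2) (by decide)
  · exact ⟨n, Or.inl (by rw [h]; rfl)⟩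
  · exact ⟨n, Or.inr (by rw [h]; rfl)⟩

/-- the modes with the frequencies `± t e_j` -/
theorem iff_w (i : Md) (j : Fin 3) (t : ℤ) (ht : t ≠ 0) (h : i.1.1 = Vw j t ∨ i.1.1 = -Vw j t)
    (h2 : i.2 = true) : σM i = 0 ↔ GG j t := by
  constructor
  · intro h0
    obtain ⟨n, hn⟩ := X_of_zero hLV i h2 h0
    have e1 := natAbs_of _ _ h j
    have e2 := natAbs_of _ _ hn j
    have e3 : (Vw j t j).natAbs = t.natAbs := by unfold Vw; rw [if_pos rfl]
    rw [natAbs_kx] at e2
    rw [e3, e2] at e1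
    have ht0 : t.natAbs ≠ 0 := Int.natAbs_ne_zero.2 ht
    by_cases hj : j.1 = n % 3
    · rw [if_pos hj] at e1
      exact ⟨n, hj, e1.symm⟩
    · rw [if_neg hj] at e1
      exact absurd e1.symm ht0
  · intro hG
    obtain ⟨n, ⟨e1, _⟩ | ⟨e1, _⟩⟩ := of_GG hG
    · rw [e1] at h
      exact zero_of_X hLV i n h h2
    · rw [e1, neg_neg] at h
      exact zero_of_X hLV i n h.symm h2

/-- the modes with the frequencies `± t^61 e_(j+1)` -/
theorem iff_W (i : Md) (j : Fin 3) (t : ℤ) (ht : t ≠ 0) (h : i.1.1 = VW j t ∨ i.1.1 = -VW j t)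
    (h2 : i.2 = true) : σM i = 0 ↔ GG j t := by
  constructor
  · intro h0
    obtain ⟨m, hm⟩ := X_of_zero hLV i h2 h0
    have e1 := natAbs_of _ _ h (j + 1)
    have e2 := natAbs_of _ _ hm (j + 1)
    have e3 : (VW j t (j + 1)).natAbs = t.natAbs ^ 61 := by
      unfold VW; rw [if_pos rfl, Int.natAbs_pow]
    rw [natAbs_kx] at e2
    rw [e3, e2] at e1
    have ht0 : t.natAbs ^ 61 ≠ 0 := pow_ne_zero _ (Int.natAbs_ne_zero.2 ht)
    by_cases hj : (j + 1).1 = m % 3
    · rw [if_pos hj] at e1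
      obtain ⟨n, hn, htn⟩ := pow_al _ _ e1.symm
      refine ⟨n, ?_, htn⟩
      have e4 := fin_succ j
      have e5 := j.2
      omega
    · rw [if_neg hj] at e1
      exact absurd e1.symm ht0
  · intro hG
    obtain ⟨n, ⟨_, e1⟩ | ⟨_, e1⟩⟩ := of_GG hG
    · rw [e1] at h
      exact zero_of_X hLV i (n + 1) h h2
    · rw [e1, neg_neg] at h
      exact zero_of_X hLV i (n + 1) h.symm h2

/-- the modes with the frequencies `± (t e_j + t^61 e_(j+1))` -/
theorem iff_y (i : Md) (j : Fin 3) (t : ℤ) (ht : t ≠ 0)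
    (h : i.1.1 = Vw j t + VW j t ∨ i.1.1 = -(Vw j t + VW j t))
    (h2 : i.2 = false) : σM i = 0 ↔ GG j t := by
  have hjj : (j : Fin 3) ≠ j + 1 := by
    intro hc
    have := fin_succ j
    rw [← hc] at this
    have := j.2
    omega
  constructor
  · intro h0
    obtain ⟨n, hn⟩ := Y_of_zero hLV i h2 h0
    have ht0 : t.natAbs ≠ 0 := Int.natAbs_ne_zero.2 ht
    have a1 : ((Vw j t + VW j t) j).natAbs = t.natAbs := by
      rw [Pi.add_apply]
      unfold Vw VW
      rw [if_pos rfl, if_neg hjj, add_zero]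
    have a2 : ((Vw j t + VW j t) (j + 1)).natAbs = t.natAbs ^ 61 := by
      rw [Pi.add_apply]
      unfold Vw VW
      rw [if_neg hjj.symm, if_pos rfl, zero_add, Int.natAbs_pow]
    have b1 : ∀ l : Fin 3, l.1 = (n + 2) % 3 → ((kx n + kx (n + 1)) l).natAbs = 0 := by
      intro l hl
      rw [Pi.add_apply, kx_other n l (by omega), kx_other (n + 1) l (by omega)]
      rfl
    have b2 : ∀ l : Fin 3, l.1 = n % 3 → ((kx n + kx (n + 1)) l).natAbs = al n := by
      intro l hl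
      rw [Pi.add_apply, kx_self n l hl, kx_other (n + 1) l (by omega), add_zero]
      exact Int.natAbs_natCast _
    have c1 := (natAbs_of _ _ h j).symm.trans (natAbs_of _ _ hn j)
    have c2 := (natAbs_of _ _ h (j + 1)).symm.trans (natAbs_of _ _ hn (j + 1))
    rw [a1] at c1
    rw [a2] at c2
    have d1 : j.1 ≠ (n + 2) % 3 := fun hc => ht0 (by rw [c1, b1 j hc])
    have d2 : (j + 1).1 ≠ (n + 2) % 3 := fun hc => pow_ne_zero 61 ht0 (by rw [c2, b1 (j + 1) hc])
    have e4 := fin_succ j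
    have e5 := j.2
    have hj : j.1 = n % 3 := by omega
    exact ⟨n, hj, by rw [c1, b2 j hj]⟩
  · intro hG
    obtain ⟨n, ⟨e1, e2⟩ | ⟨e1, e2⟩⟩ := of_GG hG
    · rw [e1, e2] at h
      exact zero_of_Y hLV i n h h2
    · rw [e1, e2, ← neg_add, neg_neg] at h
      exact zero_of_Y hLV i n h.symm h2

end main

/-! ### The main modes are not rotated -/

theorem EZ_neg (s : Bool) (k : Z3) : EZ s (-k) = EZ s k := by
  have h : ∀ x : ℤ, (-x) ^ 61 = -x ^ 61 := fun x => Odd.neg_pow (by decide) x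
  cases s
  · unfold EZ
    simp only [Pi.neg_apply, h, Bool.false_eq_true, if_false]
    ring
  · unfold EZ
    simp only [Pi.neg_apply, if_true]
    ring

theorem unr_br (i : Md) (h : unr i) : unr (br i) := by
  unfold unr at h ⊢
  change EZ i.2 (-i.1.1) = 0
  rw [EZ_neg]
  exact h

theorem unr_Xm (n : ℕ) : unr (Xm n) := by
  change EZ true (kx n) = 0
  unfold EZ
  rw [if_pos rfl]
  have h3 : n % 3 = 0 ∨ n % 3 = 1 ∨ n % 3 = 2 := by omega
  rcases h3 with h | h | h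
  · rw [kx_other n 1 (by rw [h]; decide), kx_other n 2 (by rw [h]; decide)]
    ring
  · rw [kx_other n 0 (by rw [h]; decide), kx_other n 2 (by rw [h]; decide)]
    ring
  · rw [kx_other n 0 (by rw [h]; decide), kx_other n 1 (by rw [h]; decide)]
    ring

theorem unr_Ym (n : ℕ) : unr (Ym n) := by
  change EZ false (kx n + kx (n + 1)) = 0
  unfold EZ
  rw [if_neg (by decide)]
  simp only [Pi.add_apply]
  have hal : (al (n + 1) : ℤ) = (al n : ℤ) ^ 61 := by rw [al_succ]; push_cast; rfl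
  have h3 : n % 3 = 0 ∨ n % 3 = 1 ∨ n % 3 = 2 := by omega
  rcases h3 with h | h | h
  · have h' : (n + 1) % 3 = 1 := by omega
    have z : (kx n 1 + kx (n + 1) 1 - (kx n 0 + kx (n + 1) 0) ^ 61) ^ 2 +
        (kx n 2 + kx (n + 1) 2) ^ 2 = 0 := by
      rw [kx_other n 1 (by rw [h]; decide), kx_other n 2 (by rw [h]; decide),
        kx_self n 0 (by rw [h]; rfl), kx_self (n + 1) 1 (by rw [h']; rfl),
        kx_other (n + 1) 0 (by rw [h']; decide), kx_other (n + 1) 2 (by rw [h']; decide), hal,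
        add_zero, zero_add, sub_self]
      norm_num
    rw [z, zero_mul, zero_mul]
  · have h' : (n + 1) % 3 = 2 := by omega
    have z : (kx n 2 + kx (n + 1) 2 - (kx n 1 + kx (n + 1) 1) ^ 61) ^ 2 +
        (kx n 0 + kx (n + 1) 0) ^ 2 = 0 := by
      rw [kx_other n 2 (by rw [h]; decide), kx_other n 0 (by rw [h]; decide),
        kx_self n 1 (by rw [h]; rfl), kx_self (n + 1) 2 (by rw [h']; rfl),
        kx_other (n + 1) 1 (by rw [h']; decide), kx_other (n + 1) 0 (by rw [h']; decide), hal,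
        add_zero, zero_add, sub_self]
      norm_num
    rw [z, mul_zero, zero_mul]
  · have h' : (n + 1) % 3 = 0 := by omega
    have z : (kx n 0 + kx (n + 1) 0 - (kx n 2 + kx (n + 1) 2) ^ 61) ^ 2 +
        (kx n 1 + kx (n + 1) 1) ^ 2 = 0 := by
      rw [kx_other n 0 (by rw [h]; decide), kx_other n 1 (by rw [h]; decide),
        kx_self n 2 (by rw [h]; rfl), kx_self (n + 1) 0 (by rw [h']; rfl),
        kx_other (n + 1) 2 (by rw [h']; decide), kx_other (n + 1) 1 (by rw [h']; decide), hal,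
        add_zero, zero_add, sub_self]
      norm_num
    rw [z, mul_zero]

theorem t_UNR : S_UNR := by
  intro hLV hAR
  refine ⟨fun i hi => ?_, fun i a b ui ua ub hab hn h0 => ?_⟩
  · obtain ⟨n, h | h | h | h⟩ := hLV.2.2.1 i hi
    · rw [h]; exact unr_Xm n
    · rw [h]; exact unr_br _ (unr_Xm n)
    · rw [h]; exact unr_Ym n
    · rw [h]; exact unr_br _ (unr_Ym n)
  · obtain ⟨j, t, ht, h⟩ := hAR i a b ui ua ub hab hn
    have hcase := h (Vw j t) (VW j t) (Vw j t + VW j t) rfl rfl rfl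
    obtain ⟨hi, ha, hb⟩ : (σM i = 0 ↔ GG j t) ∧ (σM a = 0 ↔ GG j t) ∧ (σM b = 0 ↔ GG j t) := by
      rcases hcase with ⟨e1, e2, e3, f1, f2, f3⟩ | ⟨e1, e2, e3, f1, f2, f3⟩ |
        ⟨e1, e2, e3, f1, f2, f3⟩ | ⟨e1, e2, e3, f1, f2, f3⟩ | ⟨e1, e2, e3, f1, f2, f3⟩ |
        ⟨e1, e2, e3, f1, f2, f3⟩
      · exact ⟨iff_y hLV i j t ht (Or.inl e3) f3, iff_w hLV a j t ht (Or.inl e1) f1,
          iff_W hLV b j t ht (Or.inl e2) f2⟩
      · exact ⟨iff_y hLV i j t ht (Or.inl e3) f3, iff_W hLV a j t ht (Or.inl e2) f1,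
          iff_w hLV b j t ht (Or.inl e1) f2⟩
      · exact ⟨iff_w hLV i j t ht (Or.inl e3) f3, iff_y hLV a j t ht (Or.inl e1) f1,
          iff_W hLV b j t ht (Or.inr e2) f2⟩
      · exact ⟨iff_w hLV i j t ht (Or.inl e3) f3, iff_W hLV a j t ht (Or.inr e2) f2,
          iff_y hLV b j t ht (Or.inl e1) f1⟩
      · exact ⟨iff_W hLV i j t ht (Or.inl e3) f3, iff_y hLV a j t ht (Or.inl e1) f1,
          iff_w hLV b j t ht (Or.inr e2) f2⟩
      · exact ⟨iff_W hLV i j t ht (Or.inl e3) f3, iff_w hLV a j t ht (Or.inr e2) f2,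
          iff_y hLV b j t ht (Or.inl e1) f1⟩
    have hG : GG j t := by
      rcases h0 with h0 | h0 | h0
      · exact hi.1 h0
      · exact ha.1 h0
      · exact hb.1 h0
    exact ⟨hi.2 hG, ha.2 hG, hb.2 hG⟩

end Pool.Agent.Y454.EP.Unr
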